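import Mathlib

set_option autoImplicit false
set_option linter.unusedSectionVars false

/-!
Mixing of higher order: averages along well separated times.
-/

namespace Pool.Agent.TH286.GM

open MeasureTheory Set Filter Topology
open scoped ENNReal symmDiff

/-- gap condition -/
def Gap {k : ℕ} (N : ℕ) (n : Fin (k + 1) → ℕ) : Prop :=
  n 0 = 0 ∧ ∀ i : Fin k, n i.castSucc + N ≤ n i.succ

theorem Gap.mono {k : ℕ} {N N' : ℕ} {n : Fin (k + 1) → ℕ} (h : Gap N n) (hN : N' ≤ N) : Gap N' n :=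
  ⟨h.1, fun i => by have := h.2 i; omega⟩

/-- mixing of order `k` -/
def MMk (k : ℕ) {Z : Type*} [MeasurableSpace Z] (m : Measure Z) (S : Z → Z) : Prop :=
  ∀ A : Fin (k + 1) → Set Z, (∀ i, MeasurableSet (A i)) → ∀ ε : ℝ, 0 < ε →
    ∃ N : ℕ, ∀ n : Fin (k + 1) → ℕ, Gap N n →
      |m.real (⋂ i, S^[n i] ⁻¹' A i) - ∏ i, m.real (A i)| < ε

theorem prod_sub_le {ι : Type*} (s : Finset ι) (a b : ι → ℝ) (ha : ∀ i, 0 ≤ a i ∧ a i ≤ 1)
    (hb : ∀ i, 0 ≤ b i ∧ b i ≤ 1) : |∏ i ∈ s, a i - ∏ i ∈ s, b i| ≤ ∑ i ∈ s, |a i - b i| := by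
  classical
  induction s using Finset.induction_on with
  | empty => simp
  | insert i s hi ih =>
    rw [Finset.prod_insert hi, Finset.prod_insert hi, Finset.sum_insert hi]
    have h1 : a i * ∏ j ∈ s, a j - b i * ∏ j ∈ s, b j =
        a i * (∏ j ∈ s, a j - ∏ j ∈ s, b j) + (a i - b i) * ∏ j ∈ s, b j := by ring
    have hpb0 : 0 ≤ ∏ j ∈ s, b j := Finset.prod_nonneg fun j _ => (hb j).1
    have hpb1 : ∏ j ∈ s, b j ≤ 1 := Finset.prod_le_one (fun j _ => (hb j).1) (fun j _ => (hb j).2)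
    rw [h1]
    calc |a i * (∏ j ∈ s, a j - ∏ j ∈ s, b j) + (a i - b i) * ∏ j ∈ s, b j|
        ≤ |a i * (∏ j ∈ s, a j - ∏ j ∈ s, b j)| + |(a i - b i) * ∏ j ∈ s, b j| := abs_add_le _ _
      _ = a i * |∏ j ∈ s, a j - ∏ j ∈ s, b j| + |a i - b i| * ∏ j ∈ s, b j := by
          rw [abs_mul, abs_mul, abs_of_nonneg (ha i).1, abs_of_nonneg hpb0]
      _ ≤ 1 * ∑ j ∈ s, |a j - b j| + |a i - b i| * 1 := by
          apply add_le_add
          · exact mul_le_mul (ha i).2 ih (abs_nonneg _) (by norm_num)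
          · exact mul_le_mul_of_nonneg_left hpb1 (abs_nonneg _)
      _ = |a i - b i| + ∑ j ∈ s, |a j - b j| := by ring

section
variable {Z : Type*} [MeasurableSpace Z] {m : Measure Z} [IsProbabilityMeasure m]

theorem real_le_one (s : Set Z) : m.real s ≤ 1 := by
  have h1 : m.real (univ : Set Z) = 1 := by simp
  rw [← h1]
  exact measureReal_mono (subset_univ _)

theorem abs_real_sub (s t : Set Z) : |m.real s - m.real t| ≤ m.real (s ∆ t) := by
  rw [abs_le]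
  constructor
  · have h1 : t ⊆ s ∪ (s ∆ t) := by
      intro x hx
      by_cases h : x ∈ s
      · exact Or.inl h
      · exact Or.inr (Or.inr ⟨hx, h⟩)
    have h2 := (measureReal_mono h1).trans (measureReal_union_le (μ := m) _ _)
    linarith
  · have h1 : s ⊆ t ∪ (s ∆ t) := by
      intro x hx
      by_cases h : x ∈ t
      · exact Or.inl h
      · exact Or.inr (Or.inl ⟨hx, h⟩)
    have h2 := (measureReal_mono h1).trans (measureReal_union_le (μ := m) _ _)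
    linarith

theorem abs_iInter_sub {k : ℕ} (A B : Fin (k + 1) → Set Z) :
    |m.real (⋂ i, A i) - m.real (⋂ i, B i)| ≤ ∑ i, m.real (A i ∆ B i) := by
  refine (abs_real_sub _ _).trans ?_
  have h1 : (⋂ i, A i) ∆ (⋂ i, B i) ⊆ ⋃ i, (A i ∆ B i) := by
    intro x hx
    rw [Set.mem_symmDiff] at hx
    simp only [mem_iInter, not_forall] at hx
    rw [mem_iUnion]
    rcases hx with ⟨h1, i, h2⟩ | ⟨h1, i, h2⟩
    · exact ⟨i, Or.inl ⟨h1 i, h2⟩⟩
    · exact ⟨i, Or.inr ⟨h1 i, h2⟩⟩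
  exact (measureReal_mono h1).trans (measureReal_iUnion_fintype_le _)

theorem mpr {W : Type*} [MeasurableSpace W] {m' : Measure W} {f : Z → W} (hf : MeasurePreserving f m m')
    {s : Set W} (hs : MeasurableSet s) : m.real (f ⁻¹' s) = m'.real s := by
  rw [measureReal_def, hf.measure_preimage hs.nullMeasurableSet, ← measureReal_def]

/-- mixing on pairs of sets -/
theorem MMk.pair {S : Z → Z} (h : MMk 1 m S) (A B : Set Z) (hA : MeasurableSet A) (hB : MeasurableSet B)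
    (ε : ℝ) (hε : 0 < ε) : ∃ N : ℕ, ∀ n ≥ N, |m.real (A ∩ S^[n] ⁻¹' B) - m.real A * m.real B| < ε := by
  obtain ⟨N, hN⟩ := h ![A, B] (by intro i; fin_cases i <;> assumption) ε hε
  refine ⟨N, fun n hn => ?_⟩
  have h1 := hN ![0, n] ⟨rfl, fun i => by fin_cases i; simpa using hn⟩
  have h2 : (⋂ i : Fin 2, S^[(![0, n] : Fin 2 → ℕ) i] ⁻¹' ((![A, B] : Fin 2 → Set Z) i)) = A ∩ S^[n] ⁻¹' B := by
    ext x
    simp [Fin.forall_fin_two]
  rw [h2] at h1
  simpa [Fin.prod_univ_two] using h1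

/-- the variance of an average of indicator functions -/
theorem int_sq (L : ℕ) (hL : 0 < L) (W : Fin L → Set Z) (hW : ∀ l, MeasurableSet (W l)) (c : ℝ) :
    ∫ x, ((1 / (L : ℝ)) * ∑ l, (W l).indicator (fun _ => (1 : ℝ)) x - c) ^ 2 ∂m =
      (1 / (L : ℝ) ^ 2) * ∑ l, ∑ l', m.real (W l ∩ W l') - 2 * c / L * ∑ l, m.real (W l) + c ^ 2 := by
  have h1 : ∀ x, ((1 / (L : ℝ)) * ∑ l, (W l).indicator (fun _ => (1 : ℝ)) x - c) ^ 2 =
      (1 / (L : ℝ) ^ 2) * ∑ l, ∑ l', (W l ∩ W l').indicator (fun _ => (1 : ℝ)) x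
        - 2 * c / L * ∑ l, (W l).indicator (fun _ => (1 : ℝ)) x + c ^ 2 := by
    intro x
    have h2 : ∑ l, ∑ l', (W l ∩ W l').indicator (fun _ => (1 : ℝ)) x =
        (∑ l, (W l).indicator (fun _ => (1 : ℝ)) x) * (∑ l, (W l).indicator (fun _ => (1 : ℝ)) x) := by
      rw [Finset.sum_mul_sum]
      refine Finset.sum_congr rfl fun l _ => Finset.sum_congr rfl fun l' _ => ?_
      by_cases h : x ∈ W l <;> by_cases h' : x ∈ W l' <;> simp [h, h']
    rw [h2]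
    have hL' : (L : ℝ) ≠ 0 := by exact_mod_cast hL.ne'
    field_simp
    ring
  simp only [h1]
  have hi : ∀ s : Set Z, MeasurableSet s → Integrable (s.indicator (fun _ => (1 : ℝ))) m := fun s hs =>
    (integrable_const (1 : ℝ)).indicator hs
  have hi1 : Integrable (fun x => (1 / (L : ℝ) ^ 2) * ∑ l, ∑ l', (W l ∩ W l').indicator (fun _ => (1 : ℝ)) x) m :=
    (integrable_finsetSum _ fun l _ => integrable_finsetSum _ fun l' _ => hi _ ((hW l).inter (hW l'))).const_mul _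
  have hi2 : Integrable (fun x => 2 * c / L * ∑ l, (W l).indicator (fun _ => (1 : ℝ)) x) m :=
    (integrable_finsetSum _ fun l _ => hi _ (hW l)).const_mul _
  have h5 : ∫ x, ((1 / (L : ℝ) ^ 2) * ∑ l, ∑ l', (W l ∩ W l').indicator (fun _ => (1 : ℝ)) x
        - 2 * c / L * ∑ l, (W l).indicator (fun _ => (1 : ℝ)) x + c ^ 2) ∂m =
      (∫ x, ((1 / (L : ℝ) ^ 2) * ∑ l, ∑ l', (W l ∩ W l').indicator (fun _ => (1 : ℝ)) x
        - 2 * c / L * ∑ l, (W l).indicator (fun _ => (1 : ℝ)) x) ∂m) + ∫ _, c ^ 2 ∂m :=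
    integral_add (hi1.sub hi2) (integrable_const _)
  rw [h5, integral_sub hi1 hi2, integral_const_mul,
    integral_const_mul, integral_finsetSum _ (fun l _ => integrable_finsetSum _ fun l' _ =>
      hi _ ((hW l).inter (hW l'))), integral_finsetSum _ (fun l _ => hi _ (hW l))]
  have h3 : ∀ l, ∫ x, ∑ l', (W l ∩ W l').indicator (fun _ => (1 : ℝ)) x ∂m = ∑ l', m.real (W l ∩ W l') := by
    intro l
    rw [integral_finsetSum _ (fun l' _ => hi _ ((hW l).inter (hW l')))]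
    refine Finset.sum_congr rfl fun l' _ => ?_
    rw [integral_indicator_const _ ((hW l).inter (hW l'))]
    simp
  have h4 : ∀ l, ∫ x, (W l).indicator (fun _ => (1 : ℝ)) x ∂m = m.real (W l) := by
    intro l
    rw [integral_indicator_const _ (hW l)]
    simp
  simp only [h3, h4]
  simp

end

section
variable {X : Type*} [MeasurableSpace X] {μ : Measure X} [IsProbabilityMeasure μ]

theorem exists_bound {ι : Type*} [Fintype ι] (P : ι → ℕ → Prop) (hP : ∀ i, ∃ N, ∀ n ≥ N, P i n) :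
    ∃ N, ∀ i, ∀ n ≥ N, P i n := by
  choose N hN using hP
  refine ⟨Finset.univ.sup N, fun i n hn => hN i n ?_⟩
  exact le_trans (Finset.le_sup (Finset.mem_univ i)) hn

/-- averages of products along well separated times are nearly constant -/
theorem avg {T : X → X} (hT : MeasurePreserving T μ μ) (hM : ∀ k, MMk k μ T) (k : ℕ) {ι : Type*} [Fintype ι]
    (a : ι → Fin (k + 1) → Set X) (ha : ∀ q i, MeasurableSet (a q i)) (ε : ℝ) (hε : 0 < ε) :
    ∃ (L : ℕ) (t : Fin L → ℕ) (N : ℕ), 0 < L ∧ ∀ n : Fin (k + 1) → ℕ, Gap N n → ∀ q,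
      ∫ x, ((1 / (L : ℝ)) * ∑ l, (⋂ i, T^[n i] ⁻¹' (T^[t l] ⁻¹' a q i)).indicator (fun _ => (1 : ℝ)) x
        - ∏ i, μ.real (a q i)) ^ 2 ∂μ ≤ ε := by
  obtain ⟨L, hL⟩ := exists_nat_gt (2 / ε)
  have hL0' : (0 : ℝ) < L := lt_trans (by positivity) hL
  have hL0 : 0 < L := by exact_mod_cast hL0'
  have hL1 : 1 / (L : ℝ) < ε / 2 := by
    rw [div_lt_iff₀ hL0']
    rw [div_lt_iff₀ hε] at hL
    linarith
  set e : ℝ := ε / 16 with he
  have he0 : 0 < e := by positivity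
  -- separated times
  obtain ⟨s, hs⟩ : ∃ s : ℕ, ∀ (p : ι × Fin (k + 1)), ∀ h ≥ s,
      |μ.real (a p.1 p.2 ∩ T^[h] ⁻¹' a p.1 p.2) - μ.real (a p.1 p.2) * μ.real (a p.1 p.2)| < e / (k + 1) :=
    exists_bound _ fun p => (hM 1).pair _ _ (ha _ _) (ha _ _) _ (by positivity)
  have hs2 : ∀ (q : ι), ∀ h ≥ s, |∏ i, μ.real (a q i ∩ T^[h] ⁻¹' a q i) - (∏ i, μ.real (a q i)) ^ 2| ≤ e := by
    intro q h hh
    rw [sq, ← Finset.prod_mul_distrib]
    refine (prod_sub_le _ _ _ (fun i => ⟨measureReal_nonneg, real_le_one _⟩) (fun i =>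
      ⟨mul_nonneg measureReal_nonneg measureReal_nonneg, mul_le_one₀ (real_le_one _) measureReal_nonneg
        (real_le_one _)⟩)).trans ?_
    refine (Finset.sum_le_sum fun i _ => (hs (q, i) h hh).le).trans ?_
    simp only [Finset.sum_const, Finset.card_univ, Fintype.card_fin, nsmul_eq_mul]
    push_cast
    rw [mul_div_cancel₀]
    positivity
  let t : Fin L → ℕ := fun l => s * (l : ℕ)
  -- joint mixing
  have hmeas : ∀ (q : ι) (l : Fin L) (i : Fin (k + 1)), MeasurableSet (T^[t l] ⁻¹' a q i) := fun q l i =>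
    (hT.iterate (t l)).measurable (ha q i)
  obtain ⟨N, hN⟩ : ∃ N : ℕ, ∀ (p : ι × Fin L × Fin L), ∀ N' ≥ N, ∀ n : Fin (k + 1) → ℕ, Gap N' n →
      |μ.real (⋂ i, T^[n i] ⁻¹' (T^[t p.2.1] ⁻¹' a p.1 i ∩ T^[t p.2.2] ⁻¹' a p.1 i)) -
        ∏ i, μ.real (T^[t p.2.1] ⁻¹' a p.1 i ∩ T^[t p.2.2] ⁻¹' a p.1 i)| < e := by
    refine exists_bound _ fun p => ?_
    obtain ⟨N, hN⟩ := hM k (fun i => T^[t p.2.1] ⁻¹' a p.1 i ∩ T^[t p.2.2] ⁻¹' a p.1 i)
      (fun i => (hmeas _ _ _).inter (hmeas _ _ _)) e he0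
    exact ⟨N, fun N' hN' n hn => hN n (hn.mono hN')⟩
  refine ⟨L, t, N, hL0, fun n hn q => ?_⟩
  set c := ∏ i, μ.real (a q i) with hc
  have hc0 : 0 ≤ c := Finset.prod_nonneg fun i _ => measureReal_nonneg
  have hc1 : c ≤ 1 := Finset.prod_le_one (fun i _ => measureReal_nonneg) (fun i _ => real_le_one _)
  have hWm : ∀ l, MeasurableSet (⋂ i, T^[n i] ⁻¹' (T^[t l] ⁻¹' a q i)) := fun l =>
    MeasurableSet.iInter fun i => (hT.iterate (n i)).measurable (hmeas q l i)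
  rw [int_sq L hL0 _ hWm c]
  have hinter : ∀ l l', (⋂ i, T^[n i] ⁻¹' (T^[t l] ⁻¹' a q i)) ∩ (⋂ i, T^[n i] ⁻¹' (T^[t l'] ⁻¹' a q i)) =
      ⋂ i, T^[n i] ⁻¹' (T^[t l] ⁻¹' a q i ∩ T^[t l'] ⁻¹' a q i) := by
    intro l l'
    ext x
    simp only [mem_inter_iff, mem_iInter, mem_preimage]
    exact forall_and.symm
  have hlow : ∀ l, c - e ≤ μ.real (⋂ i, T^[n i] ⁻¹' (T^[t l] ⁻¹' a q i)) := by
    intro l
    have h1 := hN (q, l, l) N le_rfl n hn
    simp only [inter_self] at h1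
    have h2 : ∏ i, μ.real (T^[t l] ⁻¹' a q i) = c :=
      Finset.prod_congr rfl fun i _ => mpr (hT.iterate (t l)) (ha q i)
    rw [h2] at h1
    have := (abs_lt.1 h1).1
    linarith
  have hup : ∀ l l', l ≠ l' → μ.real (⋂ i, T^[n i] ⁻¹' (T^[t l] ⁻¹' a q i ∩ T^[t l'] ⁻¹' a q i)) ≤ c ^ 2 + 2 * e := by
    have key : ∀ l l' : Fin L, l < l' →
        μ.real (⋂ i, T^[n i] ⁻¹' (T^[t l] ⁻¹' a q i ∩ T^[t l'] ⁻¹' a q i)) ≤ c ^ 2 + 2 * e := by
      intro l l' hll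
      have h1 := hN (q, l, l') N le_rfl n hn
      have h3 : t l' = t l + s * ((l' : ℕ) - l) := by
        show s * (l' : ℕ) = s * (l : ℕ) + s * ((l' : ℕ) - l)
        rw [← mul_add]
        congr 1
        have : (l : ℕ) < l' := hll
        omega
      have h2 : ∏ i, μ.real (T^[t l] ⁻¹' a q i ∩ T^[t l'] ⁻¹' a q i) =
          ∏ i, μ.real (a q i ∩ T^[s * ((l' : ℕ) - l)] ⁻¹' a q i) := by
        refine Finset.prod_congr rfl fun i _ => ?_
        have h4 : T^[t l] ⁻¹' a q i ∩ T^[t l'] ⁻¹' a q i =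
            T^[t l] ⁻¹' (a q i ∩ T^[s * ((l' : ℕ) - l)] ⁻¹' a q i) := by
          rw [h3, add_comm, Function.iterate_add]
          rfl
        rw [h4]
        exact mpr (hT.iterate _) ((ha q i).inter ((hT.iterate _).measurable (ha q i)))
      have hge : s * ((l' : ℕ) - l) ≥ s := by
        have : (l : ℕ) < l' := hll
        exact Nat.le_mul_of_pos_right _ (by omega)
      have h5 := hs2 q _ hge
      have h1' := (abs_lt.1 h1).2
      have h5' := (abs_le.1 h5).2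
      simp only at h1'
      rw [h2] at h1'
      linarith
    intro l l' hll
    rcases lt_or_gt_of_ne hll with h | h
    · exact key l l' h
    · have := key l' l h
      have h6 : (⋂ i, T^[n i] ⁻¹' (T^[t l] ⁻¹' a q i ∩ T^[t l'] ⁻¹' a q i)) =
          ⋂ i, T^[n i] ⁻¹' (T^[t l'] ⁻¹' a q i ∩ T^[t l] ⁻¹' a q i) := by
        simp only [inter_comm]
      rw [h6]
      exact this
  have hS1 : ∑ l : Fin L, ∑ l' : Fin L, μ.real ((⋂ i, T^[n i] ⁻¹' (T^[t l] ⁻¹' a q i)) ∩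
      (⋂ i, T^[n i] ⁻¹' (T^[t l'] ⁻¹' a q i))) ≤ L + L ^ 2 * (c ^ 2 + 2 * e) := by
    calc ∑ l : Fin L, ∑ l' : Fin L, μ.real ((⋂ i, T^[n i] ⁻¹' (T^[t l] ⁻¹' a q i)) ∩
          (⋂ i, T^[n i] ⁻¹' (T^[t l'] ⁻¹' a q i)))
        ≤ ∑ l : Fin L, ∑ l' : Fin L, ((if l = l' then 1 else 0) + (c ^ 2 + 2 * e)) := by
          refine Finset.sum_le_sum fun l _ => Finset.sum_le_sum fun l' _ => ?_
          rw [hinter]
          by_cases h : l = l'
          · rw [if_pos h]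
            have h1 := real_le_one (m := μ) (⋂ i, T^[n i] ⁻¹' (T^[t l] ⁻¹' a q i ∩ T^[t l'] ⁻¹' a q i))
            have h2 : 0 ≤ c ^ 2 + 2 * e := by positivity
            linarith
          · rw [if_neg h, zero_add]
            exact hup l l' h
      _ = L + L ^ 2 * (c ^ 2 + 2 * e) := by
          simp only [Finset.sum_add_distrib, Finset.sum_ite_eq, Finset.mem_univ, if_true, Finset.sum_const,
            Finset.card_univ, Fintype.card_fin, nsmul_eq_mul]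
          ring
  have hS2 : (L : ℝ) * (c - e) ≤ ∑ l : Fin L, μ.real (⋂ i, T^[n i] ⁻¹' (T^[t l] ⁻¹' a q i)) := by
    have := Finset.sum_le_sum fun (l : Fin L) (_ : l ∈ Finset.univ) => hlow l
    rwa [Finset.sum_const, Finset.card_univ, Fintype.card_fin, nsmul_eq_mul] at this
  have h7 : (1 / (L : ℝ) ^ 2) * ∑ l : Fin L, ∑ l' : Fin L, μ.real ((⋂ i, T^[n i] ⁻¹' (T^[t l] ⁻¹' a q i)) ∩
      (⋂ i, T^[n i] ⁻¹' (T^[t l'] ⁻¹' a q i))) ≤ 1 / L + (c ^ 2 + 2 * e) := by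
    refine (mul_le_mul_of_nonneg_left hS1 (by positivity)).trans (le_of_eq ?_)
    field_simp
  have h8 : 2 * c * (c - e) ≤ 2 * c / L * ∑ l : Fin L, μ.real (⋂ i, T^[n i] ⁻¹' (T^[t l] ⁻¹' a q i)) := by
    have h9 : 2 * c / L * ((L : ℝ) * (c - e)) = 2 * c * (c - e) := by field_simp
    rw [← h9]
    exact mul_le_mul_of_nonneg_left hS2 (by positivity)
  have h10 : c * e ≤ e := by nlinarith
  nlinarith

end

end Pool.Agent.TH286.GM
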