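import Mathlib
import Pool.Agent.TH286.GM.Mix

set_option autoImplicit false
set_option linter.unusedSectionVars false

/-!
The main estimate.
-/

namespace Pool.Agent.TH286.GM

open MeasureTheory Set Filter Topology
open scoped ENNReal symmDiff

section
variable {X Y : Type*} [MeasurableSpace X] [MeasurableSpace Y] {μ : Measure X} {ν : Measure Y}
  [IsProbabilityMeasure μ] [IsProbabilityMeasure ν]

theorem int_abs_le {Z : Type*} [MeasurableSpace Z] {m : Measure Z} [IsProbabilityMeasure m] (f : Z → ℝ)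
    (hf : Integrable f m) (hf2 : Integrable (fun z => f z ^ 2) m) (η : ℝ) (hη : 0 < η)
    (h : ∫ z, f z ^ 2 ∂m ≤ η ^ 2) : ∫ z, |f z| ∂m ≤ η := by
  have h1 : ∀ z, |f z| ≤ (1 / (2 * η)) * f z ^ 2 + η / 2 := by
    intro z
    have h2 : 0 ≤ (|f z| - η) ^ 2 := sq_nonneg _
    have h3 : |f z| ^ 2 = f z ^ 2 := sq_abs _
    have h4 : (1 / (2 * η)) * f z ^ 2 + η / 2 - |f z| = (1 / (2 * η)) * (|f z| - η) ^ 2 := by
      rw [← h3]
      field_simp
      ring
    have h5 : 0 ≤ (1 / (2 * η)) * (|f z| - η) ^ 2 := by positivity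
    linarith
  have h2 : ∫ z, |f z| ∂m ≤ ∫ z, ((1 / (2 * η)) * f z ^ 2 + η / 2) ∂m :=
    integral_mono hf.abs ((hf2.const_mul _).add (integrable_const _)) h1
  rw [integral_add (hf2.const_mul _) (integrable_const _), integral_const_mul] at h2
  simp only [integral_const, probReal_univ, smul_eq_mul, one_mul] at h2
  have h3 : (1 / (2 * η)) * ∫ z, f z ^ 2 ∂m ≤ (1 / (2 * η)) * η ^ 2 :=
    mul_le_mul_of_nonneg_left h (by positivity)
  have h4 : (1 / (2 * η)) * η ^ 2 = η / 2 := by field_simp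
  linarith

theorem fst_iter {T : X → X} {S : X × Y → X × Y} (hST : ∀ z, (S z).1 = T z.1) (n : ℕ) (z : X × Y) :
    (S^[n] z).1 = T^[n] z.1 := by
  induction n with
  | zero => rfl
  | succ n ih => rw [Function.iterate_succ_apply', Function.iterate_succ_apply', hST, ih]

/-- the main estimate -/
theorem est {T : X → X} (hT : MeasurePreserving T μ μ) {S : X × Y → X × Y}
    (hS : MeasurePreserving S (μ.prod ν) (μ.prod ν)) (hST : ∀ z, (S z).1 = T z.1) {k : ℕ}
    (A : Fin (k + 1) → Set (X × Y)) (hA : ∀ i, MeasurableSet (A i))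
    (U : X × Y → Y) (hU : Measurable U) {α β : Type} [Fintype α] [Fintype β] (P : X → α) (Q : Y → β)
    (hP : ∀ p, MeasurableSet {x | P x = p}) (hQ : ∀ q, MeasurableSet {y | Q y = q})
    (g : Fin (k + 1) → α → β → Prop) {L : ℕ} (t : Fin L → ℕ) (hL : 0 < L) (ε η : ℝ) (hη : 0 < η)
    (hd : ∀ l i, (μ.prod ν).real ((S^[t l] ⁻¹' A i) ∆ {z | g i (P (T^[t l] z.1)) (Q (U z))}) ≤ ε)
    (hc : ∀ i q, |μ.real {x | g i (P x) q} - (μ.prod ν).real (A i)| ≤ ε)
    (n : Fin (k + 1) → ℕ)
    (hn : ∀ q : Fin (k + 1) → β,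
      ∫ x, ((1 / (L : ℝ)) * ∑ l, (⋂ i, T^[n i] ⁻¹' (T^[t l] ⁻¹' {x | g i (P x) (q i)})).indicator
        (fun _ => (1 : ℝ)) x - ∏ i, μ.real {x | g i (P x) (q i)}) ^ 2 ∂μ ≤ η ^ 2) :
    |(μ.prod ν).real (⋂ i, S^[n i] ⁻¹' A i) - ∏ i, (μ.prod ν).real (A i)| ≤
      2 * (k + 1) * ε + (Fintype.card (Fin (k + 1) → β)) * η := by
  classical
  set m := μ.prod ν with hm
  have hL' : (0 : ℝ) < L := by exact_mod_cast hL
  -- measurability
  have ha : ∀ i q, MeasurableSet {x | g i (P x) q} := by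
    intro i q
    have h1 : {x | g i (P x) q} = ⋃ p ∈ {p | g i p q}, {x | P x = p} := by
      ext x
      simp
    rw [h1]
    exact MeasurableSet.biUnion (Set.toFinite _).countable fun p _ => hP p
  have hGm : ∀ i l, MeasurableSet {z : X × Y | g i (P (T^[t l] z.1)) (Q (U z))} := by
    intro i l
    have h1 : {z : X × Y | g i (P (T^[t l] z.1)) (Q (U z))} =
        ⋃ q : β, ({z : X × Y | g i (P (T^[t l] z.1)) q} ∩ {z | Q (U z) = q}) := by
      ext z
      simp
    rw [h1]
    refine MeasurableSet.iUnion fun q => MeasurableSet.inter ?_ (hU (hQ q))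
    exact ((hT.iterate (t l)).measurable.comp measurable_fst) (ha i q)
  set D : Fin L → Set (X × Y) := fun l => ⋂ i, S^[n i] ⁻¹' {z | g i (P (T^[t l] z.1)) (Q (U z))} with hD
  have hDm : ∀ l, MeasurableSet (D l) := fun l => MeasurableSet.iInter fun i =>
    (hS.iterate (n i)).measurable (hGm i l)
  -- Step 1
  have h1 : ∀ l, |m.real (⋂ i, S^[n i] ⁻¹' A i) - m.real (D l)| ≤ (k + 1) * ε := by
    intro l
    have e1 : m.real (⋂ i, S^[n i] ⁻¹' A i) = m.real (⋂ i, S^[n i] ⁻¹' (S^[t l] ⁻¹' A i)) := by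
      have e2 : (⋂ i, S^[n i] ⁻¹' (S^[t l] ⁻¹' A i)) = S^[t l] ⁻¹' (⋂ i, S^[n i] ⁻¹' A i) := by
        rw [preimage_iInter]
        refine iInter_congr fun i => ?_
        rw [← preimage_comp, ← preimage_comp, ← Function.iterate_add, ← Function.iterate_add, add_comm]
      rw [e2]
      exact (mpr (hS.iterate (t l)) (MeasurableSet.iInter fun i => (hS.iterate (n i)).measurable (hA i))).symm
    rw [e1]
    refine (abs_iInter_sub _ _).trans ?_
    calc ∑ i, m.real ((S^[n i] ⁻¹' (S^[t l] ⁻¹' A i)) ∆ (S^[n i] ⁻¹' {z | g i (P (T^[t l] z.1)) (Q (U z))}))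
        ≤ ∑ _i : Fin (k + 1), ε := by
          refine Finset.sum_le_sum fun i _ => ?_
          rw [← preimage_symmDiff, mpr (hS.iterate (n i))
            (((hS.iterate (t l)).measurable (hA i)).symmDiff (hGm i l))]
          exact hd l i
      _ = (k + 1) * ε := by
          simp [Finset.sum_const]
  -- Step 2
  set c : (Fin (k + 1) → β) → ℝ := fun q => ∏ i, μ.real {x | g i (P x) (q i)} with hcdef
  set W : (Fin (k + 1) → β) → Fin L → Set X := fun q l => ⋂ i, T^[n i] ⁻¹' (T^[t l] ⁻¹' {x | g i (P x) (q i)})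
    with hW
  have hWm : ∀ q l, MeasurableSet (W q l) := fun q l => MeasurableSet.iInter fun i =>
    (hT.iterate (n i)).measurable ((hT.iterate (t l)).measurable (ha i (q i)))
  set f : (Fin (k + 1) → β) → X → ℝ := fun q x =>
    (1 / (L : ℝ)) * ∑ l, (W q l).indicator (fun _ => (1 : ℝ)) x - c q with hf
  have hfm : ∀ q, Measurable (f q) := fun q =>
    ((Finset.measurable_sum _ fun l _ => measurable_const.indicator (hWm q l)).const_mul _).sub measurable_const
  have hc01 : ∀ q, 0 ≤ c q ∧ c q ≤ 1 := fun q => ⟨Finset.prod_nonneg fun i _ => measureReal_nonneg,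
    Finset.prod_le_one (fun i _ => measureReal_nonneg) (fun i _ => real_le_one _)⟩
  have hav : ∀ (V : Fin L → Prop) [∀ l, Decidable (V l)],
      0 ≤ (1 / (L : ℝ)) * ∑ l, (if V l then (1 : ℝ) else 0) ∧ (1 / (L : ℝ)) * ∑ l, (if V l then (1 : ℝ) else 0) ≤ 1 := by
    intro V _
    have h2 : (0 : ℝ) ≤ ∑ l, (if V l then (1 : ℝ) else 0) := Finset.sum_nonneg fun l _ => by split_ifs <;> norm_num
    have h3 : ∑ l, (if V l then (1 : ℝ) else 0) ≤ L := by
      calc ∑ l, (if V l then (1 : ℝ) else 0) ≤ ∑ _l : Fin L, (1 : ℝ) :=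
            Finset.sum_le_sum fun l _ => by split_ifs <;> norm_num
        _ = L := by simp
    refine ⟨by positivity, ?_⟩
    rw [one_div, inv_mul_le_iff₀ hL']
    linarith
  have hf1 : ∀ q x, |f q x| ≤ 1 := by
    intro q x
    have h2 := hav (fun l => x ∈ W q l)
    have h3 : ∑ l, (W q l).indicator (fun _ => (1 : ℝ)) x = ∑ l, (if x ∈ W q l then (1 : ℝ) else 0) :=
      Finset.sum_congr rfl fun l _ => by simp [Set.indicator_apply]
    show |(1 / (L : ℝ)) * ∑ l, (W q l).indicator (fun _ => (1 : ℝ)) x - c q| ≤ 1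
    rw [h3, abs_le]
    have := hc01 q
    constructor <;> linarith [h2.1, h2.2]
  have hfi : ∀ q, Integrable (f q) μ := fun q =>
    Integrable.of_bound (hfm q).aestronglyMeasurable 1 (Eventually.of_forall fun x => by
      rw [Real.norm_eq_abs]; exact hf1 q x)
  have hfi2 : ∀ q, Integrable (fun x => f q x ^ 2) μ := fun q =>
    Integrable.of_bound ((hfm q).pow_const 2).aestronglyMeasurable 1 (Eventually.of_forall fun x => by
      rw [Real.norm_eq_abs, abs_pow]
      exact pow_le_one₀ (abs_nonneg _) (hf1 q x))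
  have hfL : ∀ q, ∫ x, |f q x| ∂μ ≤ η := fun q => int_abs_le (f q) (hfi q) (hfi2 q) η hη (hn q)
  -- pointwise comparison
  set qz : X × Y → (Fin (k + 1) → β) := fun z i => Q (U (S^[n i] z)) with hqz
  have hpt : ∀ z l, (z ∈ D l ↔ z.1 ∈ W (qz z) l) := by
    intro z l
    simp only [hD, hW, mem_iInter, mem_preimage, mem_ofPred_eq, fst_iter hST, hqz]
  set h : X × Y → ℝ := fun z => (1 / (L : ℝ)) * ∑ l, (D l).indicator (fun _ => (1 : ℝ)) z with hh
  have hhf : ∀ z, h z = f (qz z) z.1 + c (qz z) := by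
    intro z
    show (1 / (L : ℝ)) * ∑ l, (D l).indicator (fun _ => (1 : ℝ)) z =
      (1 / (L : ℝ)) * ∑ l, (W (qz z) l).indicator (fun _ => (1 : ℝ)) z.1 - c (qz z) + c (qz z)
    have : ∑ l, (D l).indicator (fun _ => (1 : ℝ)) z = ∑ l, (W (qz z) l).indicator (fun _ => (1 : ℝ)) z.1 := by
      refine Finset.sum_congr rfl fun l _ => ?_
      by_cases hz : z ∈ D l
      · rw [indicator_of_mem hz, indicator_of_mem ((hpt z l).1 hz)]
      · rw [indicator_of_notMem hz, indicator_of_notMem (fun h' => hz ((hpt z l).2 h'))]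
    rw [this]
    ring
  set C := ∏ i, m.real (A i) with hC
  have hcC : ∀ q, |c q - C| ≤ (k + 1) * ε := by
    intro q
    refine (prod_sub_le _ _ _ (fun i => ⟨measureReal_nonneg, real_le_one _⟩)
      (fun i => ⟨measureReal_nonneg, real_le_one _⟩)).trans ?_
    calc ∑ i, |μ.real {x | g i (P x) (q i)} - m.real (A i)| ≤ ∑ _i : Fin (k + 1), ε :=
          Finset.sum_le_sum fun i _ => hc i (q i)
      _ = (k + 1) * ε := by simp [Finset.sum_const]
  have hhm : Measurable h :=
    (Finset.measurable_sum _ fun l _ => measurable_const.indicator (hDm l)).const_mul _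
  have hhi : Integrable h m := by
    refine Integrable.of_bound hhm.aestronglyMeasurable 1 (Eventually.of_forall fun z => ?_)
    rw [Real.norm_eq_abs]
    have h2 := hav (fun l => z ∈ D l)
    have h3 : ∑ l, (D l).indicator (fun _ => (1 : ℝ)) z = ∑ l, (if z ∈ D l then (1 : ℝ) else 0) :=
      Finset.sum_congr rfl fun l _ => by simp [Set.indicator_apply]
    show |(1 / (L : ℝ)) * ∑ l, (D l).indicator (fun _ => (1 : ℝ)) z| ≤ 1
    rw [h3, abs_le]
    constructor <;> linarith [h2.1, h2.2]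
  have hint : ∫ z, h z ∂m = (1 / (L : ℝ)) * ∑ l, m.real (D l) := by
    show ∫ z, (1 / (L : ℝ)) * ∑ l, (D l).indicator (fun _ => (1 : ℝ)) z ∂m = _
    rw [integral_const_mul, integral_finsetSum _ (fun l _ => (integrable_const (1 : ℝ)).indicator (hDm l))]
    congr 1
    refine Finset.sum_congr rfl fun l _ => ?_
    rw [integral_indicator_const _ (hDm l)]
    simp
  have hbd : ∀ z, |h z - C| ≤ (∑ q, |f q z.1|) + (k + 1) * ε := by
    intro z
    rw [hhf z]
    have h2 : f (qz z) z.1 + c (qz z) - C = f (qz z) z.1 + (c (qz z) - C) := by ring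
    rw [h2]
    refine (abs_add_le _ _).trans (add_le_add ?_ (hcC _))
    exact Finset.single_le_sum (f := fun q => |f q z.1|) (fun q _ => abs_nonneg _) (Finset.mem_univ _)
  have hsi : Integrable (fun z : X × Y => ∑ q, |f q z.1|) m :=
    integrable_finsetSum _ fun q _ => ((hfi q).comp_fst ν).abs
  have h3 : |∫ z, h z ∂m - C| ≤ (Fintype.card (Fin (k + 1) → β)) * η + (k + 1) * ε := by
    have e1 : ∫ z, h z ∂m - C = ∫ z, (h z - C) ∂m := by
      rw [integral_sub hhi (integrable_const _)]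
      simp
    rw [e1]
    refine abs_integral_le_integral_abs.trans ?_
    have e2 : ∫ z, |h z - C| ∂m ≤ ∫ z, ((∑ q, |f q z.1|) + (k + 1) * ε) ∂m :=
      integral_mono (hhi.sub (integrable_const _)).abs (hsi.add (integrable_const _)) hbd
    refine e2.trans ?_
    have e3 : ∫ z, ((∑ q, |f q z.1|) + (k + 1) * ε) ∂m =
        (∫ z, (∑ q, |f q z.1|) ∂m) + ∫ _z, ((k : ℝ) + 1) * ε ∂m :=
      integral_add hsi (integrable_const _)
    rw [e3, integral_finsetSum _ (fun q _ => ((hfi q).comp_fst ν).abs)]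
    have e4 : ∀ q, ∫ z : X × Y, |f q z.1| ∂m ≤ η := by
      intro q
      have := integral_fun_fst (μ := μ) (ν := ν) (f := fun x => |f q x|)
      rw [hm, this]
      simpa using hfL q
    have e5 : ∑ q, ∫ z : X × Y, |f q z.1| ∂m ≤ (Fintype.card (Fin (k + 1) → β)) * η := by
      refine (Finset.sum_le_sum fun q _ => e4 q).trans ?_
      simp [Finset.sum_const]
    have e6 : ∫ _z : X × Y, ((k : ℝ) + 1) * ε ∂m = (k + 1) * ε := by simp
    rw [e6]
    linarith
  have h4 : |m.real (⋂ i, S^[n i] ⁻¹' A i) - ∫ z, h z ∂m| ≤ (k + 1) * ε := by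
    rw [hint]
    have e1 : m.real (⋂ i, S^[n i] ⁻¹' A i) - (1 / (L : ℝ)) * ∑ l, m.real (D l) =
        (1 / (L : ℝ)) * ∑ l : Fin L, (m.real (⋂ i, S^[n i] ⁻¹' A i) - m.real (D l)) := by
      rw [Finset.sum_sub_distrib]
      simp only [Finset.sum_const, Finset.card_univ, Fintype.card_fin, nsmul_eq_mul]
      field_simp
    rw [e1, abs_mul, abs_of_nonneg (by positivity : (0 : ℝ) ≤ 1 / L), one_div, inv_mul_le_iff₀ hL']
    refine (Finset.abs_sum_le_sum_abs _ _).trans ((Finset.sum_le_sum fun l _ => h1 l).trans ?_)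
    simp [Finset.sum_const]
  have h5 : m.real (⋂ i, S^[n i] ⁻¹' A i) - C =
      (m.real (⋂ i, S^[n i] ⁻¹' A i) - ∫ z, h z ∂m) + (∫ z, h z ∂m - C) := by ring
  rw [h5]
  refine (abs_add_le _ _).trans ((add_le_add h4 h3).trans (le_of_eq ?_))
  ring

end

end Pool.Agent.TH286.GM
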