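import Mathlib
import Pool.Agent.TH286.GM.Est
import Pool.Agent.W744.NG.Ind
import Pool.Agent.W744.NG.Theta

set_option autoImplicit false
set_option linter.unusedSectionVars false

/-!
Approximation by step functions, independent labels, and density of the good coboundaries.
-/

namespace Pool.Agent.TH286.GM

open MeasureTheory Set Filter Topology
open scoped ENNReal symmDiff
open Pool.H359R3 Pool.H359R3.IX
open Pool.Agent.W744.NG

section
variable {X Y : Type} [MeasurableSpace X] [MeasurableSpace Y]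
  {μ : Measure X} {ν : Measure Y} [IsProbabilityMeasure μ] [IsProbabilityMeasure ν]

theorem lab_proj (D : YS ν) {r r' : ℕ} (h : r ≤ r') :
    ∃ π : (Fin r' → ZMod 2) → (Fin r → ZMod 2), ∀ y, D.v r y = π (D.v r' y) := by
  classical
  refine ⟨fun w => if hw : ∃ y, D.v r' y = w then D.v r hw.choose else 0, fun y => ?_⟩
  have hy : ∃ y', D.v r' y' = D.v r' y := ⟨y, rfl⟩
  show D.v r y = (if hw : ∃ y', D.v r' y' = D.v r' y then D.v r hw.choose else 0)
  rw [dif_pos hy]
  exact (D.ref r r' h _ _ hy.choose_spec).symm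

/-- being approximable by sets given by finitely many labels -/
def Apx (μ : Measure X) (D : YS ν) (W : Set (X × Y)) : Prop :=
  ∀ ε : ℝ, 0 < ε → ∃ (α : Type) (_ : Fintype α) (P : X → α) (r : ℕ) (g : Set (α × (Fin r → ZMod 2))),
    (∀ p, MeasurableSet {x | P x = p}) ∧
    (μ.prod ν).real (W ∆ {z | (P z.1, D.v r z.2) ∈ g}) < ε

theorem apx_all (D : YS ν) (W : Set (X × Y)) (hW : MeasurableSet W) : Apx μ D W := by
  have hgen : (inferInstance : MeasurableSpace (X × Y)) = MeasurableSpace.generateFrom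
        (image2 (· ×ˢ ·) {s : Set X | MeasurableSet s} {t : Set Y | MeasurableSet t}) := generateFrom_prod.symm
  refine approx_induction (μ.prod ν) _ hgen (Apx μ D) ?_ ?_ ?_ ?_ ?_ W hW
  · rintro _ ⟨E, hE, B, hB, rfl⟩ ε hε
    obtain ⟨r, s, hs⟩ := D.gen B hB ε hε
    refine ⟨Prop, inferInstance, fun x => x ∈ E, r, {u | u.1 ∧ u.2 ∈ s}, ?_, ?_⟩
    · intro p
      by_cases hp : p
      · have : {x | (x ∈ E) = p} = E := by
          ext x
          simp [hp]
        rw [this]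
        exact hE
      · have : {x | (x ∈ E) = p} = Eᶜ := by
          ext x
          simp [hp]
        rw [this]
        exact MeasurableSet.compl hE
    · have h1 : (E ×ˢ B) ∆ {z : X × Y | (z.1 ∈ E, D.v r z.2) ∈ {u : Prop × (Fin r → ZMod 2) | u.1 ∧ u.2 ∈ s}} ⊆
          (univ : Set X) ×ˢ (B ∆ {y | D.v r y ∈ s}) := by
        rintro ⟨x, y⟩ hz
        simp only [Set.mem_symmDiff, mem_prod, mem_ofPred_eq, mem_univ, true_and] at hz ⊢
        tauto
      refine lt_of_le_of_lt (measureReal_mono h1) ?_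
      rw [measureReal_prod_prod]
      simpa using hs
  · intro ε hε
    refine ⟨Unit, inferInstance, fun _ => (), 0, ∅, fun p => by simp, ?_⟩
    simpa using hε
  · intro s _ hs ε hε
    obtain ⟨α, hα, P, r, g, hP, hg⟩ := hs ε hε
    refine ⟨α, hα, P, r, gᶜ, hP, ?_⟩
    have : sᶜ ∆ {z : X × Y | (P z.1, D.v r z.2) ∈ gᶜ} = s ∆ {z | (P z.1, D.v r z.2) ∈ g} := by
      ext z
      simp only [Set.mem_symmDiff, mem_compl_iff, mem_ofPred_eq]
      tauto
    rw [this]
    exact hg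
  · intro s s' _ _ hs hs' ε hε
    obtain ⟨α, hα, P, r, g, hP, hg⟩ := hs (ε / 2) (by positivity)
    obtain ⟨α', hα', P', r', g', hP', hg'⟩ := hs' (ε / 2) (by positivity)
    obtain ⟨π, hπ⟩ := lab_proj D (le_max_left r r')
    obtain ⟨π', hπ'⟩ := lab_proj D (le_max_right r r')
    refine ⟨α × α', inferInstance, fun x => (P x, P' x), max r r',
      {u | (u.1.1, π u.2) ∈ g ∨ (u.1.2, π' u.2) ∈ g'}, ?_, ?_⟩
    · rintro ⟨p, p'⟩
      have : {x | (P x, P' x) = (p, p')} = {x | P x = p} ∩ {x | P' x = p'} := by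
        ext x
        simp
      rw [this]
      exact (hP p).inter (hP' p')
    · have h1 : (s ∪ s') ∆ {z : X × Y | ((P z.1, P' z.1), D.v (max r r') z.2) ∈
          {u : (α × α') × (Fin (max r r') → ZMod 2) | (u.1.1, π u.2) ∈ g ∨ (u.1.2, π' u.2) ∈ g'}} ⊆
          (s ∆ {z | (P z.1, D.v r z.2) ∈ g}) ∪ (s' ∆ {z | (P' z.1, D.v r' z.2) ∈ g'}) := by
        intro z hz
        simp only [Set.mem_symmDiff, mem_union, mem_ofPred_eq, hπ z.2, hπ' z.2] at hz ⊢
        tauto
      refine lt_of_le_of_lt ((measureReal_mono h1).trans (measureReal_union_le _ _)) ?_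
      linarith
  · intro s _ hs ε hε
    obtain ⟨t, _, ht, hst⟩ := hs (ε / 2) (by positivity)
    obtain ⟨α, hα, P, r, g, hP, hg⟩ := ht (ε / 2) (by positivity)
    refine ⟨α, hα, P, r, g, hP, ?_⟩
    have := Ind.sdt (m := μ.prod ν) s t {z | (P z.1, D.v r z.2) ∈ g}
    linarith

theorem apx_fam (D : YS ν) {k : ℕ} (A : Fin (k + 1) → Set (X × Y)) (hA : ∀ i, MeasurableSet (A i))
    (ε : ℝ) (hε : 0 < ε) :
    ∃ (α : Type) (_ : Fintype α) (P : X → α) (r : ℕ) (g : Fin (k + 1) → Set (α × (Fin r → ZMod 2))),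
    (∀ p, MeasurableSet {x | P x = p}) ∧
    ∀ i, (μ.prod ν).real (A i ∆ {z | (P z.1, D.v r z.2) ∈ g i}) < ε := by
  classical
  have h1 := fun i => apx_all (μ := μ) D (A i) (hA i) ε hε
  choose α hα P r g hP hg using h1
  have h2 : ∀ i, ∃ π : (Fin (Finset.univ.sup r) → ZMod 2) → (Fin (r i) → ZMod 2),
      ∀ y, D.v (r i) y = π (D.v (Finset.univ.sup r) y) := fun i =>
    lab_proj D (Finset.le_sup (Finset.mem_univ i))
  choose π hπ using h2
  have : ∀ i, Fintype (α i) := hα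
  refine ⟨∀ i, α i, inferInstance, fun x i => P i x, Finset.univ.sup r, fun i => {u | (u.1 i, π i u.2) ∈ g i}, ?_, ?_⟩
  · intro p
    have : {x | (fun i => P i x) = p} = ⋂ i, {x | P i x = p i} := by
      ext x
      simp [funext_iff]
    rw [this]
    exact MeasurableSet.iInter fun i => hP i (p i)
  · intro i
    have : {z : X × Y | ((fun i => P i z.1), D.v (Finset.univ.sup r) z.2) ∈
        {u : (∀ i, α i) × (Fin (Finset.univ.sup r) → ZMod 2) | (u.1 i, π i u.2) ∈ g i}} =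
        {z | (P i z.1, D.v (r i) z.2) ∈ g i} := by
      ext z
      simp only [mem_ofPred_eq, hπ i z.2]
    rw [this]
    exact hg i

/-- the tail of a measurable function with values in `ℕ` -/
theorem tail_small (τ : X → ℕ) (hτ : Measurable τ) (ε : ℝ) (hε : 0 < ε) :
    ∃ J : ℕ, ∀ J' ≥ J, μ.real {x | J' ≤ τ x} < ε := by
  have h1 : Tendsto (fun J : ℕ => μ {x | J ≤ τ x}) atTop (𝓝 (μ (⋂ J : ℕ, {x | J ≤ τ x}))) := by
    apply tendsto_measure_iInter_atTop
    · intro J
      exact (hτ (measurableSet_Ici (a := J))).nullMeasurableSet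
    · intro a b hab x hx
      exact le_trans hab hx
    · exact ⟨0, measure_ne_top _ _⟩
  have h2 : (⋂ J : ℕ, {x | J ≤ τ x}) = ∅ := by
    ext x
    simp only [mem_iInter, mem_ofPred_eq, mem_empty_iff_false, iff_false, not_forall, not_le]
    exact ⟨τ x + 1, Nat.lt_succ_self _⟩
  rw [h2, measure_empty] at h1
  have h3 := (ENNReal.tendsto_toReal (by simp : (0 : ℝ≥0∞) ≠ ⊤)).comp h1
  have h4 : ∀ᶠ J : ℕ in atTop, μ.real {x | J ≤ τ x} < ε := h3.eventually (gt_mem_nhds (by simpa using hε))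
  exact eventually_atTop.1 h4

/-- labels which are constant along blocks and nearly independent of given labels -/
theorem indep (T : AU μ) (hM : MMk 1 μ T.1) (τ : X → ℕ) (hτ : Measurable τ) {α : Type} [Fintype α] (P : X → α)
    (hP : ∀ p, MeasurableSet {x | P x = p}) (D : YS μ) (r : ℕ) (ε : ℝ) (hε : 0 < ε) :
    ∃ ρ0 : ℕ, ∀ ρ ≥ ρ0, ∀ (p : α) (w : Fin r → ZMod 2),
      |μ.real {x | P x = p ∧ D.v r ((T.1 : X → X)^[ρ - τ x] x) = w} - μ.real {x | P x = p} / 2 ^ r| < ε := by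
  obtain ⟨J, hJ⟩ := tail_small (μ := μ) τ hτ (ε / 4) (by positivity)
  obtain ⟨N, hN⟩ : ∃ N, ∀ (u : α × Fin J × (Fin r → ZMod 2)), ∀ h ≥ N,
      |μ.real (({x | P x = u.1} ∩ {x | τ x = u.2.1}) ∩ (T.1 : X → X)^[h] ⁻¹' {x | D.v r x = u.2.2}) -
        μ.real ({x | P x = u.1} ∩ {x | τ x = u.2.1}) * μ.real {x | D.v r x = u.2.2}| < ε / (4 * (J + 1)) :=
    exists_bound _ fun u => hM.pair _ _ ((hP _).inter (hτ (measurableSet_singleton _))) (D.meas _ _) _
      (by positivity)
  refine ⟨N + J, fun ρ hρ p w => ?_⟩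
  set V : Set X := {x | P x = p ∧ D.v r ((T.1 : X → X)^[ρ - τ x] x) = w} with hV
  have hτm : ∀ j, MeasurableSet {x | τ x = j} := fun j => hτ (measurableSet_singleton j)
  have hTm : ∀ h : ℕ, Measurable ((T.1 : X → X)^[h]) := fun h => T.1.measurable.iterate h
  -- decomposition
  have hdec : ∀ W : ℕ → Set X, (∀ j, MeasurableSet (W j)) →
      μ.real (⋃ j ∈ Finset.range J, (({x | P x = p} ∩ {x | τ x = j}) ∩ W j)) =
        ∑ j ∈ Finset.range J, μ.real (({x | P x = p} ∩ {x | τ x = j}) ∩ W j) := by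
    intro W hW
    rw [measureReal_biUnion_finset]
    · intro j _ j' _ hjj
      rw [Function.onFun, Set.disjoint_left]
      rintro x ⟨⟨_, h2⟩, _⟩ ⟨⟨_, h4⟩, _⟩
      exact hjj (h2.symm.trans h4)
    · intro j _
      exact ((hP p).inter (hτm j)).inter (hW j)
  have hsplit : ∀ (V' : Set X) (W : ℕ → Set X), (∀ j, MeasurableSet (W j)) → V' ⊆ {x | P x = p} →
      (∀ j x, τ x = j → P x = p → (x ∈ V' ↔ x ∈ W j)) →
      |μ.real V' - ∑ j ∈ Finset.range J, μ.real (({x | P x = p} ∩ {x | τ x = j}) ∩ W j)| ≤ ε / 4 := by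
    intro V' W hW hVP hVW
    rw [← hdec W hW]
    refine (abs_real_sub _ _).trans ?_
    refine le_trans (measureReal_mono ?_) (hJ J le_rfl).le
    intro x hx
    by_contra hcon
    have hτx : τ x < J := not_le.1 hcon
    rw [Set.mem_symmDiff] at hx
    rcases hx with ⟨h1, h2⟩ | ⟨h1, h2⟩
    · apply h2
      rw [mem_iUnion₂]
      exact ⟨τ x, Finset.mem_range.2 hτx, ⟨hVP h1, rfl⟩, (hVW _ x rfl (hVP h1)).1 h1⟩
    · apply h2
      rw [mem_iUnion₂] at h1
      obtain ⟨j, _, ⟨h3, h4⟩, h5⟩ := h1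
      exact (hVW j x h4 h3).2 h5
  have h1 := hsplit V (fun j => (T.1 : X → X)^[ρ - j] ⁻¹' {x | D.v r x = w})
    (fun j => hTm _ (D.meas r w)) (fun x hx => hx.1) (by
      intro j x hj hp
      simp only [hV, mem_ofPred_eq, hp, true_and, hj, mem_preimage])
  have h2 := hsplit {x | P x = p} (fun _ => univ) (fun j => MeasurableSet.univ) (fun x hx => hx) (by
      intro j x hj hp
      simp [hp])
  have h3 : |∑ j ∈ Finset.range J, μ.real (({x | P x = p} ∩ {x | τ x = j}) ∩
      (T.1 : X → X)^[ρ - j] ⁻¹' {x | D.v r x = w}) -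
      (∑ j ∈ Finset.range J, μ.real (({x | P x = p} ∩ {x | τ x = j}) ∩ univ)) / 2 ^ r| ≤ ε / 4 := by
    rw [Finset.sum_div, ← Finset.sum_sub_distrib]
    refine (Finset.abs_sum_le_sum_abs _ _).trans ?_
    calc ∑ j ∈ Finset.range J, |μ.real (({x | P x = p} ∩ {x | τ x = j}) ∩
          (T.1 : X → X)^[ρ - j] ⁻¹' {x | D.v r x = w}) -
          μ.real (({x | P x = p} ∩ {x | τ x = j}) ∩ univ) / 2 ^ r|
        ≤ ∑ _j ∈ Finset.range J, ε / (4 * (J + 1)) := by
          refine Finset.sum_le_sum fun j hj => ?_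
          have hj' : j < J := Finset.mem_range.1 hj
          have h4 := hN (p, ⟨j, hj'⟩, w) (ρ - j) (by omega)
          simp only at h4
          rw [D.unif r w] at h4
          rw [inter_univ, div_eq_mul_one_div]
          exact h4.le
      _ ≤ ε / 4 := by
          rw [Finset.sum_const, Finset.card_range, nsmul_eq_mul]
          rw [mul_div_assoc', div_le_div_iff₀ (by positivity) (by norm_num)]
          nlinarith
  have hp1 : (1 : ℝ) ≤ 2 ^ r := one_le_pow₀ (by norm_num)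
  set a := μ.real V
  set b := ∑ j ∈ Finset.range J, μ.real (({x | P x = p} ∩ {x | τ x = j}) ∩
      (T.1 : X → X)^[ρ - j] ⁻¹' {x | D.v r x = w})
  set c := ∑ j ∈ Finset.range J, μ.real (({x | P x = p} ∩ {x | τ x = j}) ∩ univ)
  set d := μ.real {x | P x = p}
  have h5 : |c / 2 ^ r - d / 2 ^ r| ≤ ε / 4 := by
    rw [← sub_div, abs_div, abs_of_nonneg (by positivity : (0 : ℝ) ≤ 2 ^ r), abs_sub_comm]
    exact (div_le_self (abs_nonneg _) hp1).trans h2
  have h6 : a - d / 2 ^ r = (a - b) + (b - c / 2 ^ r) + (c / 2 ^ r - d / 2 ^ r) := by ring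
  rw [h6]
  have h7 := abs_add_three (a - b) (b - c / 2 ^ r) (c / 2 ^ r - d / 2 ^ r)
  linarith

end

end Pool.Agent.TH286.GM
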