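import Mathlib
import Pool.Agent.TH286.GM.Apx

set_option autoImplicit false
set_option linter.unusedSectionVars false

/-!
Density of good coboundaries.
-/

namespace Pool.Agent.TH286.GM

open MeasureTheory Set Filter Topology
open scoped ENNReal symmDiff
open Pool.H359R3 Pool.H359R3.IX
open Pool.Agent.W744.NG Pool.Agent.W744.NG.Dens

section
variable {X Y : Type} [MeasurableSpace X] [MeasurableSpace Y]
  {μ : Measure X} {ν : Measure Y} [IsProbabilityMeasure μ] [IsProbabilityMeasure ν]

/-- time since the last visit to a small set -/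
theorem exists_tau (T : AU μ) (hM : MMk 1 μ T.1) (D : YS μ) (δ : ℝ) (hδ : 0 < δ) :
    ∃ (τ : X → ℕ) (E : Set X), Measurable τ ∧ MeasurableSet E ∧ μ.real E < δ ∧
      ∀ x, x ∉ E → τ (T.1 x) = τ x + 1 := by
  classical
  obtain ⟨s, hs⟩ := exists_pow_lt_of_lt_one hδ (by norm_num : (1 / 2 : ℝ) < 1)
  set B : Set X := {x | D.v s x = 0} with hB
  have hBm : MeasurableSet B := D.meas s 0
  have hBμ : μ.real B = (1 / 2) ^ s := by
    rw [hB, D.unif s 0]
    simp
  have hB0 : 0 < μ.real B := by rw [hBμ]; positivity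
  let R : X → X := fun x => T.1.symm x
  have hRm : ∀ j, Measurable (R^[j]) := fun j => T.1.symm.measurable.iterate j
  have hRT : ∀ (j : ℕ) (x : X), R^[j + 1] (T.1 x) = R^[j] x := by
    intro j x
    rw [Function.iterate_succ_apply]
    show R^[j] (T.1.symm (T.1 x)) = _
    rw [MeasurableEquiv.symm_apply_apply]
  have hRTj : ∀ (j : ℕ) (x : X), R^[j] ((T.1 : X → X)^[j] x) = x := by
    intro j
    induction j with
    | zero => intro x; rfl
    | succ j ih =>
      intro x
      rw [Function.iterate_succ_apply' (T.1 : X → X), hRT, ih]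
  set N0 : Set X := {x | ∀ j, R^[j] x ∉ B} with hN0
  have hN0m : MeasurableSet N0 := by
    have : N0 = ⋂ j, (R^[j] ⁻¹' B)ᶜ := by
      ext x
      simp [hN0]
    rw [this]
    exact MeasurableSet.iInter fun j => (hRm j hBm).compl
  have hN0z : μ.real N0 = 0 := by
    by_contra hne
    have hpos : 0 < μ.real N0 := lt_of_le_of_ne measureReal_nonneg (Ne.symm hne)
    obtain ⟨N, hN⟩ := hM.pair B N0 hBm hN0m (μ.real B * μ.real N0) (by positivity)
    have h1 := hN N le_rfl
    have h2 : B ∩ (T.1 : X → X)^[N] ⁻¹' N0 = ∅ := by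
      ext x
      simp only [mem_inter_iff, mem_preimage, mem_empty_iff_false, iff_false, not_and]
      intro hx h3
      apply h3 N
      rw [hRTj]
      exact hx
    rw [h2, measureReal_empty, zero_sub, abs_neg, abs_of_pos (by positivity)] at h1
    exact lt_irrefl _ h1
  let τ : X → ℕ := fun x => if h : ∃ j, R^[j] x ∈ B then Nat.find h else 0
  have hτ : Measurable τ := by
    refine measurable_to_countable' fun j => ?_
    have h1 : τ ⁻¹' {j} = (if j = 0 then N0 else ∅) ∪ ((R^[j] ⁻¹' B) ∩ ⋂ i ∈ Finset.range j, (R^[i] ⁻¹' B)ᶜ) := by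
      ext x
      by_cases h : ∃ j, R^[j] x ∈ B
      · have hx : x ∉ N0 := fun h2 => by
          obtain ⟨i, hi⟩ := h
          exact h2 i hi
        have hx2 : x ∉ (if j = 0 then N0 else ∅ : Set X) := by
          split_ifs
          · exact hx
          · exact notMem_empty x
        show τ x = j ↔ _
        simp only [mem_union, hx2, false_or, mem_inter_iff, mem_preimage, mem_iInter, Finset.mem_range,
          mem_compl_iff]
        show (if h : ∃ j, R^[j] x ∈ B then Nat.find h else 0) = j ↔ _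
        rw [dif_pos h, Nat.find_eq_iff]
      · have hx : x ∈ N0 := fun i hi => h ⟨i, hi⟩
        have hx3 : ¬ (R^[j] x ∈ B) := fun h2 => h ⟨j, h2⟩
        show τ x = j ↔ _
        simp only [mem_union, mem_inter_iff, mem_preimage, hx3, false_and, or_false]
        show (if h : ∃ j, R^[j] x ∈ B then Nat.find h else 0) = j ↔ _
        rw [dif_neg h]
        by_cases hj : j = 0
        · simp [hj, hx]
        · simp [hj, Ne.symm hj]
    rw [h1]
    refine MeasurableSet.union ?_ ((hRm j hBm).inter (Finset.measurableSet_biInter _ fun i _ => (hRm i hBm).compl))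
    split_ifs
    · exact hN0m
    · exact MeasurableSet.empty
  refine ⟨τ, N0 ∪ T.1 ⁻¹' B, hτ, hN0m.union (T.1.measurable hBm), ?_, ?_⟩
  · refine lt_of_le_of_lt (measureReal_union_le _ _) ?_
    rw [hN0z, zero_add, mpr T.2 hBm, hBμ]
    exact hs
  · intro x hx
    rw [mem_union, not_or] at hx
    have h1 : ∃ j, R^[j] x ∈ B := by
      by_contra hcon
      exact hx.1 fun j hj => hcon ⟨j, hj⟩
    have h2 : ∃ j, R^[j] (T.1 x) ∈ B := by
      obtain ⟨j, hj⟩ := h1
      exact ⟨j + 1, by rw [hRT]; exact hj⟩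
    show (if h : ∃ j, R^[j] (T.1 x) ∈ B then Nat.find h else 0) = (if h : ∃ j, R^[j] x ∈ B then Nat.find h else 0) + 1
    rw [dif_pos h1, dif_pos h2, Nat.find_eq_iff]
    refine ⟨?_, ?_⟩
    · rw [hRT]
      exact Nat.find_spec h1
    · intro j hj
      rcases j with _ | j
      · exact fun h => hx.2 h
      · rw [hRT]
        exact Nat.find_min h1 (by omega)

end

section
variable {X Y : Type} [MeasurableSpace X] [StandardBorelSpace X] [MeasurableSpace Y] [StandardBorelSpace Y]
  {μ : Measure X} {ν : Measure Y} [IsProbabilityMeasure μ] [IsProbabilityMeasure ν]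

/-- density of the good coboundaries -/
theorem dense_core (T : AU μ) (hM : MMk 1 μ T.1) (DX : YS μ) (D : YS ν) (Φ : Coc X ν) {k : ℕ}
    (A : Fin (k + 1) → Set (X × Y)) (hA : ∀ i, MeasurableSet (A i)) (δ ε : ℝ) (hδ : 0 < δ) (hε : 0 < ε) :
    ∃ (Φ₀ : Coc X ν) (E : Set X), MeasurableSet E ∧ μ.real E < δ ∧ (∀ x, x ∉ E → Φ₀.1 x = Φ.1 x) ∧
      ∃ (U : X × Y → Y) (α β : Type) (_ : Fintype α) (_ : Fintype β) (P : X → α) (Q : Y → β)
        (g : Fin (k + 1) → α → β → Prop), Measurable U ∧ (∀ p, MeasurableSet {x | P x = p}) ∧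
        (∀ q, MeasurableSet {y | Q y = q}) ∧
        (∀ (t : ℕ) i, (μ.prod ν).real (((sk (T.1 : X → X) Φ₀)^[t] ⁻¹' A i) ∆
          {z | g i (P ((T.1 : X → X)^[t] z.1)) (Q (U z))}) ≤ ε) ∧
        ∀ i q, |μ.real {x | g i (P x) q} - (μ.prod ν).real (A i)| ≤ ε := by
  classical
  set m := μ.prod ν with hm
  obtain ⟨τ, E1, hτ, hE1, hE1μ, hτE⟩ := exists_tau T hM DX (δ / 2) (by positivity)
  obtain ⟨θ, hθ⟩ := Theta.theta X Y μ ν T Φ τ hτ
  -- the sets seen through `θ`
  have hWm : ∀ i, MeasurableSet {z : X × Y | (z.1, (θ.1 z.1).1 z.2) ∈ A i} := fun i =>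
    (measurable_fst.prodMk θ.2) (hA i)
  obtain ⟨α, hα, P, r, g, hP, hg⟩ := apx_fam (μ := μ) D (fun i => {z : X × Y | (z.1, (θ.1 z.1).1 z.2) ∈ A i}) hWm
    (ε / 2) (by positivity)
  -- independent labels
  obtain ⟨ρ0, hρ0⟩ := indep T hM τ hτ P hP DX r
    (ε / (2 * ((Fintype.card α : ℝ) * 2 ^ r + 1))) (by positivity)
  obtain ⟨J, hJ⟩ := tail_small (μ := μ) τ hτ (δ / 2) (by positivity)
  set ρ := max ρ0 J with hρ
  have hind := hρ0 ρ (le_max_left _ _)
  set Γ : X → Fin r → ZMod 2 := fun x => DX.v r ((T.1 : X → X)^[ρ - τ x] x) with hΓdef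
  have hΓ : ∀ w, MeasurableSet {x | Γ x = w} := by
    intro w
    have h1 : {x | Γ x = w} = ⋃ j : ℕ, ({x | τ x = j} ∩ (T.1 : X → X)^[ρ - j] ⁻¹' {x | DX.v r x = w}) := by
      ext x
      simp [hΓdef]
    rw [h1]
    exact MeasurableSet.iUnion fun j => (hτ (measurableSet_singleton j)).inter
      ((T.1.measurable.iterate _) (DX.meas r w))
  obtain ⟨Φ₀, hΦ₀⟩ := Theta.alpha X Y μ ν T θ D r Γ hΓ
  have hτm : MeasurableSet {x | ρ ≤ τ x} := hτ (measurableSet_Ici (a := ρ))
  refine ⟨Φ₀, E1 ∪ {x | ρ ≤ τ x}, hE1.union hτm, ?_, ?_, ?_⟩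
  · have h1 := hJ ρ (le_max_right _ _)
    have h2 := measureReal_union_le (μ := μ) E1 {x | ρ ≤ τ x}
    linarith
  · intro x hx
    rw [mem_union, not_or] at hx
    have h1 : τ (T.1 x) = τ x + 1 := hτE x hx.1
    have h3 : τ x < ρ := not_le.1 hx.2
    have h2 : Γ (T.1 x) = Γ x := by
      show DX.v r ((T.1 : X → X)^[ρ - τ (T.1 x)] (T.1 x)) = DX.v r ((T.1 : X → X)^[ρ - τ x] x)
      rw [h1, ← Function.iterate_succ_apply (T.1 : X → X)]
      congr 2
      have : (ρ - (τ x + 1)).succ = ρ - τ x := by omega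
      rw [this]
    apply Subtype.ext
    apply MeasurableEquiv.ext
    funext y
    rw [hΦ₀ x y, h2, hθ x h1]
    simp
  · have hXi := XiF_mp (μ := μ) D Γ hΓ
    have hPsi := PsiF_mp (μ := μ) D Γ hΓ θ
    have hvs : ∀ (w : Fin r → ZMod 2) (y : Y), D.v r ((D.act r w).1.symm y) = D.v r y + w := by
      intro w y
      have e1 := D.v_act r w ((D.act r w).1.symm y)
      rw [MeasurableEquiv.apply_symm_apply] at e1
      rw [e1, add_assoc]
      have e2 : w + w = 0 := by
        funext i
        show w i + w i = 0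
        generalize w i = c
        revert c
        decide
      rw [e2, add_zero]
    refine ⟨fun z => (PsiF D Γ θ z).2, α × (Fin r → ZMod 2), (Fin r → ZMod 2), inferInstance, inferInstance,
      fun x => (P x, Γ x), D.v r, fun i u v => (u.1, v + u.2) ∈ g i, measurable_snd.comp hPsi.measurable,
      ?_, D.meas r, ?_, ?_⟩
    · rintro ⟨p, w⟩
      have : {x | (P x, Γ x) = (p, w)} = {x | P x = p} ∩ {x | Γ x = w} := by
        ext x
        simp
      rw [this]
      exact (hP p).inter (hΓ w)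
    · intro t i
      -- the map `(x, y) ↦ (T^t x, U(x, y))`
      have hV : MeasurePreserving (fun z : X × Y => ((T.1 : X → X)^[t] (PsiF D Γ θ z).1, (PsiF D Γ θ z).2)) m m :=
        ((T.2.iterate t).prod (MeasurePreserving.id ν)).comp hPsi
      have h1 : ((sk (T.1 : X → X) Φ₀)^[t] ⁻¹' A i) ∆
          {z | (fun u v => (u.1, v + u.2) ∈ g i) ((fun x => (P x, Γ x)) ((T.1 : X → X)^[t] z.1))
            (D.v r (PsiF D Γ θ z).2)} =
          (fun z : X × Y => XiF D Γ ((T.1 : X → X)^[t] (PsiF D Γ θ z).1, (PsiF D Γ θ z).2)) ⁻¹'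
            ({z : X × Y | (z.1, (θ.1 z.1).1 z.2) ∈ A i} ∆ {z | (P z.1, D.v r z.2) ∈ g i}) := by
        ext z
        have e1 := conj_iter D Γ T θ Φ₀ hΦ₀ t z
        set z' := (sk (T.1 : X → X) Φ₀)^[t] z with hz'
        have e2 : (z' ∈ A i) ↔ ((XiF D Γ ((T.1 : X → X)^[t] (PsiF D Γ θ z).1, (PsiF D Γ θ z).2)) ∈
            {z : X × Y | (z.1, (θ.1 z.1).1 z.2) ∈ A i}) := by
          have e3 : ((T.1 : X → X)^[t] (PsiF D Γ θ z).1, (PsiF D Γ θ z).2) = PsiF D Γ θ z' := by
            rw [e1]
            rfl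
          rw [e3]
          unfold PsiF XiF
          simp
        have e4 : ((XiF D Γ ((T.1 : X → X)^[t] (PsiF D Γ θ z).1, (PsiF D Γ θ z).2)) ∈
            {z : X × Y | (P z.1, D.v r z.2) ∈ g i}) ↔
            (P ((T.1 : X → X)^[t] z.1), D.v r (PsiF D Γ θ z).2 + Γ ((T.1 : X → X)^[t] z.1)) ∈ g i := by
          show (P ((T.1 : X → X)^[t] (PsiF D Γ θ z).1),
            D.v r ((D.act r (Γ ((T.1 : X → X)^[t] (PsiF D Γ θ z).1))).1.symm (PsiF D Γ θ z).2)) ∈ g i ↔ _
          rw [hvs]
          rfl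
        rw [mem_preimage, Set.mem_symmDiff, Set.mem_symmDiff, ← e2, e4]
        rfl
      have hgm : MeasurableSet {z : X × Y | (P z.1, D.v r z.2) ∈ g i} := by
        have h2 : {z : X × Y | (P z.1, D.v r z.2) ∈ g i} =
            ⋃ u ∈ g i, ({x | P x = u.1} ×ˢ {y | D.v r y = u.2}) := by
          ext z
          simp
        rw [h2]
        exact MeasurableSet.biUnion (Set.toFinite _).countable fun u _ => (hP u.1).prod (D.meas r u.2)
      rw [h1]
      have h3 : m.real ((fun z : X × Y => XiF D Γ ((T.1 : X → X)^[t] (PsiF D Γ θ z).1, (PsiF D Γ θ z).2)) ⁻¹'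
            ({z : X × Y | (z.1, (θ.1 z.1).1 z.2) ∈ A i} ∆ {z | (P z.1, D.v r z.2) ∈ g i})) =
          m.real ({z : X × Y | (z.1, (θ.1 z.1).1 z.2) ∈ A i} ∆ {z | (P z.1, D.v r z.2) ∈ g i}) :=
        mpr (hXi.comp hV) ((hWm i).symmDiff hgm)
      rw [h3]
      have := hg i
      linarith
    · intro i q
      -- measure of the step set
      have hfin : ∀ (c : α × (Fin r → ZMod 2) → Prop) [DecidablePred c],
          μ.real {x | c (P x, Γ x)} = ∑ u, if c u then μ.real {x | P x = u.1 ∧ Γ x = u.2} else 0 := by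
        intro c _
        have h1 : {x | c (P x, Γ x)} = ⋃ u ∈ Finset.univ.filter c, {x | P x = u.1 ∧ Γ x = u.2} := by
          ext x
          simp only [mem_ofPred_eq, Finset.mem_filter, Finset.mem_univ, true_and, mem_iUnion, exists_prop]
          constructor
          · intro h
            exact ⟨_, h, rfl, rfl⟩
          · rintro ⟨u, h, h1, h2⟩
            rw [h1, h2]
            exact h
        rw [h1, measureReal_biUnion_finset, Finset.sum_filter]
        · intro u _ u' _ huu
          rw [Function.onFun, Set.disjoint_left]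
          rintro x ⟨h1, h2⟩ ⟨h3, h4⟩
          exact huu (Prod.ext (h1.symm.trans h3) (h2.symm.trans h4))
        · intro u _
          exact (hP u.1).inter (hΓ u.2)
      have hgm : m.real {z : X × Y | (P z.1, D.v r z.2) ∈ g i} =
          ∑ u : α × (Fin r → ZMod 2), if u ∈ g i then μ.real {x | P x = u.1} / 2 ^ r else 0 := by
        have h1 : {z : X × Y | (P z.1, D.v r z.2) ∈ g i} =
            ⋃ u ∈ Finset.univ.filter (· ∈ g i), ({x | P x = u.1} ×ˢ {y | D.v r y = u.2}) := by
          ext z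
          simp
        rw [h1, measureReal_biUnion_finset, Finset.sum_filter]
        · refine Finset.sum_congr rfl fun u _ => ?_
          rw [measureReal_prod_prod, D.unif]
          simp only [mul_one_div]
        · intro u _ u' _ huu
          rw [Function.onFun, Set.disjoint_left]
          rintro x ⟨h1, h2⟩ ⟨h3, h4⟩
          exact huu (Prod.ext (h1.symm.trans h3) (h2.symm.trans h4))
        · intro u _
          exact (hP u.1).prod (D.meas r u.2)
      have h1 : μ.real {x | (fun u v => (u.1, v + u.2) ∈ g i) ((fun x => (P x, Γ x)) x) q} =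
          ∑ u : α × (Fin r → ZMod 2), if (u.1, q + u.2) ∈ g i then μ.real {x | P x = u.1 ∧ Γ x = u.2} else 0 :=
        hfin (fun u => (u.1, q + u.2) ∈ g i)
      have h2 : ∑ u : α × (Fin r → ZMod 2), (if u ∈ g i then μ.real {x | P x = u.1} / 2 ^ r else 0) =
          ∑ u : α × (Fin r → ZMod 2), if (u.1, q + u.2) ∈ g i then μ.real {x | P x = u.1} / 2 ^ r else 0 := by
        refine (Fintype.sum_equiv ((Equiv.refl α).prodCongr (Equiv.addLeft q)) _ _ ?_).symm
        rintro ⟨p, w⟩
        rfl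
      have h3 : |μ.real {x | (fun u v => (u.1, v + u.2) ∈ g i) ((fun x => (P x, Γ x)) x) q} -
          m.real {z : X × Y | (P z.1, D.v r z.2) ∈ g i}| ≤ ε / 2 := by
        rw [h1, hgm, h2, ← Finset.sum_sub_distrib]
        refine (Finset.abs_sum_le_sum_abs _ _).trans ?_
        calc ∑ u : α × (Fin r → ZMod 2), |(if (u.1, q + u.2) ∈ g i then μ.real {x | P x = u.1 ∧ Γ x = u.2} else 0) -
              (if (u.1, q + u.2) ∈ g i then μ.real {x | P x = u.1} / 2 ^ r else 0)|
            ≤ ∑ _u : α × (Fin r → ZMod 2), ε / (2 * ((Fintype.card α : ℝ) * 2 ^ r + 1)) := by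
              refine Finset.sum_le_sum fun u _ => ?_
              split_ifs
              · exact (hind u.1 u.2).le
              · rw [sub_self, abs_zero]
                positivity
          _ ≤ ε / 2 := by
              rw [Finset.sum_const, Finset.card_univ, Fintype.card_prod, Fintype.card_fun, Fintype.card_fin,
                ZMod.card, nsmul_eq_mul]
              push_cast
              rw [mul_div_assoc', div_le_div_iff₀ (by positivity) (by norm_num)]
              nlinarith [hε, (by positivity : (0 : ℝ) ≤ (Fintype.card α : ℝ) * 2 ^ r)]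
      have hWA : m.real {z : X × Y | (z.1, (θ.1 z.1).1 z.2) ∈ A i} = m.real (A i) := by
        have h4 : MeasurePreserving (fun z : X × Y => (z.1, (θ.1 z.1).1 z.2)) m m := sk_mp (oneA : AU μ) θ
        exact mpr h4 (hA i)
      have h5 := abs_real_sub (m := m) {z : X × Y | (P z.1, D.v r z.2) ∈ g i}
        {z : X × Y | (z.1, (θ.1 z.1).1 z.2) ∈ A i}
      rw [symmDiff_comm, hWA] at h5
      have h6 := hg i
      have h7 : μ.real {x | (fun u v => (u.1, v + u.2) ∈ g i) ((fun x => (P x, Γ x)) x) q} - m.real (A i) =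
        (μ.real {x | (fun u v => (u.1, v + u.2) ∈ g i) ((fun x => (P x, Γ x)) x) q} -
          m.real {z : X × Y | (P z.1, D.v r z.2) ∈ g i}) +
        (m.real {z : X × Y | (P z.1, D.v r z.2) ∈ g i} - m.real (A i)) := by ring
      rw [h7]
      refine (abs_add_le _ _).trans ?_
      linarith

end

end Pool.Agent.TH286.GM
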