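import Mathlib
import Pool.Agent.TH286.GM.Den
import Pool.Agent.W744.NG.Open
import Pool.Agent.W744.NG.Final
import Pool.Agent.W744.NG.YSt

set_option autoImplicit false
set_option linter.unusedSectionVars false

/-!
The generic extension of a multiply mixing automorphism is multiply mixing.
-/

namespace Pool.Agent.TH286.GM

open MeasureTheory Set Filter Topology
open scoped ENNReal symmDiff
open Pool.H359R3 Pool.H359R3.IX
open Pool.Agent.W744.NG Pool.Agent.W744.NG.Dens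

section
variable {X Y : Type} [MeasurableSpace X] [StandardBorelSpace X] [MeasurableSpace Y] [StandardBorelSpace Y]
  {μ : Measure X} {ν : Measure Y} [IsProbabilityMeasure μ] [IsProbabilityMeasure ν]

/-- the cocycles whose extension is `ε`-nearly mixing on a tuple of sets -/
def GG (μ : Measure X) (ν : Measure Y) (T : X → X) {k : ℕ} (A : Fin (k + 1) → Set (X × Y)) (ε : ℝ) :
    Set (Coc X ν) :=
  {Ψ | ∃ N : ℕ, ∀ n : Fin (k + 1) → ℕ, Gap N n →
    |(μ.prod ν).real (⋂ i, (sk T Ψ)^[n i] ⁻¹' A i) - ∏ i, (μ.prod ν).real (A i)| < ε}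

/-- iterates of the skew product depend continuously on the cocycle -/
theorem near (T : AU μ) (Φ₀ : Coc X ν) (A : Set (X × Y)) (hA : MeasurableSet A) (t : ℕ) (ε : ℝ) (hε : 0 < ε) :
    ∀ᶠ Ψ in @nhds (Coc X ν) (tC μ ν) Φ₀,
      (μ.prod ν).real (((sk (T.1 : X → X) Ψ)^[t] ⁻¹' A) ∆ ((sk (T.1 : X → X) Φ₀)^[t] ⁻¹' A)) < ε := by
  obtain ⟨F⟩ := exists_DF (μ.prod ν)
  have h1 : Tendsto (fun Ψ : Coc X ν => skA T Ψ) (@nhds (Coc X ν) (tC μ ν) Φ₀)
      (@nhds _ (un F).toTopologicalSpace (skA T Φ₀)) :=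
    @Continuous.tendsto _ _ (tC μ ν) (un F).toTopologicalSpace _ (Open.skA_cont Ind.main F T) Φ₀
  have h2 := tend_pow F _ _ _ h1 t
  have h3 := of_tendsto_un F _ _ _ h2 A hA (measure_lt_top _ _)
  have h4 := h3.eventually (gt_mem_nhds (show (0 : ℝ≥0∞) < ENNReal.ofReal ε by
      rw [ENNReal.ofReal_pos]; exact hε))
  filter_upwards [h4] with Ψ hΨ
  have e1 : ∀ Ψ : Coc X ν, ((powA (skA T Ψ) t).1 : X × Y → X × Y) = (sk (T.1 : X → X) Ψ)^[t] := by
    intro Ψ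
    funext z
    rw [powA_apply]
    rfl
  rw [e1, e1] at hΨ
  exact ENNReal.toReal_lt_of_lt_ofReal hΨ

theorem open_core (T : AU μ) (hM : ∀ k, MMk k μ T.1) (Φ₀ : Coc X ν) {k : ℕ}
    (A : Fin (k + 1) → Set (X × Y)) (hA : ∀ i, MeasurableSet (A i)) (ε : ℝ) (hε : 0 < ε)
    (h : ∃ (U : X × Y → Y) (α β : Type) (_ : Fintype α) (_ : Fintype β) (P : X → α) (Q : Y → β)
        (g : Fin (k + 1) → α → β → Prop), Measurable U ∧ (∀ p, MeasurableSet {x | P x = p}) ∧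
        (∀ q, MeasurableSet {y | Q y = q}) ∧
        (∀ (t : ℕ) i, (μ.prod ν).real (((sk (T.1 : X → X) Φ₀)^[t] ⁻¹' A i) ∆
          {z | g i (P ((T.1 : X → X)^[t] z.1)) (Q (U z))}) ≤ ε / (8 * (k + 1))) ∧
        ∀ i q, |μ.real {x | g i (P x) q} - (μ.prod ν).real (A i)| ≤ ε / (8 * (k + 1))) :
    GG μ ν T.1 A ε ∈ @nhds (Coc X ν) (tC μ ν) Φ₀ := by
  classical
  obtain ⟨U, α, β, hα, hβ, P, Q, g, hU, hP, hQ, hd, hc⟩ := h
  set e := ε / (8 * (k + 1)) with he
  have he0 : 0 < e := by positivity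
  set c : ℝ := ((Fintype.card (Fin (k + 1) → β) : ℕ) : ℝ) with hcdef
  set η := ε / (4 * (c + 1)) with hη
  have hc0 : 0 ≤ c := by positivity
  have hη0 : 0 < η := by positivity
  have ha : ∀ (q : Fin (k + 1) → β) i, MeasurableSet {x | g i (P x) (q i)} := by
    intro q i
    have h1 : {x | g i (P x) (q i)} = ⋃ p ∈ {p | g i p (q i)}, {x | P x = p} := by
      ext x
      simp
    rw [h1]
    exact MeasurableSet.biUnion (Set.toFinite _).countable fun p _ => hP p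
  obtain ⟨L, t, N, hL, hN⟩ := avg T.2 hM k (fun (q : Fin (k + 1) → β) i => {x | g i (P x) (q i)}) ha (η ^ 2)
    (by positivity)
  have h1 : ∀ᶠ Ψ in @nhds (Coc X ν) (tC μ ν) Φ₀, ∀ l i,
      (μ.prod ν).real (((sk (T.1 : X → X) Ψ)^[t l] ⁻¹' A i) ∆ ((sk (T.1 : X → X) Φ₀)^[t l] ⁻¹' A i)) < e := by
    rw [eventually_all]
    intro l
    rw [eventually_all]
    intro i
    exact near T Φ₀ (A i) (hA i) (t l) e he0
  filter_upwards [h1] with Ψ hΨ
  refine ⟨N, fun n hn => ?_⟩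
  have h2 := est T.2 (sk_mp T Ψ) (fun z => rfl) A hA U hU P Q hP hQ g t hL (2 * e) η hη0 ?_ ?_ n (hN n hn)
  · refine lt_of_le_of_lt h2 ?_
    have h3 : 2 * ((k : ℝ) + 1) * (2 * e) = ε / 2 := by
      rw [he]
      field_simp
      ring
    have h4 : c * η ≤ ε / 4 := by
      rw [hη, mul_div_assoc', div_le_div_iff₀ (by positivity) (by norm_num)]
      nlinarith
    rw [h3]
    linarith
  · intro l i
    have h3 := Ind.sdt (m := μ.prod ν) ((sk (T.1 : X → X) Ψ)^[t l] ⁻¹' A i)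
      ((sk (T.1 : X → X) Φ₀)^[t l] ⁻¹' A i) {z | g i (P ((T.1 : X → X)^[t l] z.1)) (Q (U z))}
    have h4 := hΨ l i
    have h5 := hd (t l) i
    linarith
  · intro i q
    have h5 := hc i q
    linarith

theorem GG_dense [NullSingletonClass μ] [NullSingletonClass ν] (T : AU μ) (hM : ∀ k, MMk k μ T.1) {k : ℕ}
    (A : Fin (k + 1) → Set (X × Y)) (hA : ∀ i, MeasurableSet (A i)) (ε : ℝ) (hε : 0 < ε) :
    @Dense (Coc X ν) (tC μ ν) (@interior _ (tC μ ν) (GG μ ν T.1 A ε)) := by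
  let _ : TopologicalSpace (Coc X ν) := tC μ ν
  obtain ⟨DX⟩ := YSt.main X μ
  obtain ⟨D⟩ := YSt.main Y ν
  rw [dense_iff_inter_open]
  intro O hO hne
  obtain ⟨Φ, hΦ⟩ := hne
  have h2 : ∀ j : ℕ, ∃ α ∈ interior (GG μ ν T.1 A ε), ∃ E : Set X, MeasurableSet E ∧
      μ.real E < 1 / ((j : ℝ) + 1) ∧ ∀ x, x ∉ E → α.1 x = Φ.1 x := by
    intro j
    obtain ⟨Φ₀, E, hE, hEμ, hag, h⟩ := dense_core T (hM 1) DX D Φ A hA (1 / ((j : ℝ) + 1)) (ε / (8 * (k + 1)))
      (by positivity) (by positivity)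
    exact ⟨Φ₀, mem_interior_iff_mem_nhds.2 (open_core T hM Φ₀ A hA ε hε h), E, hE, hEμ, hag⟩
  choose α hα E hE1 hE2 hE3 using h2
  have h3 : Tendsto (fun j => μ.real (E j)) atTop (𝓝 0) :=
    squeeze_zero (fun j => measureReal_nonneg) (fun j => (hE2 j).le) tendsto_one_div_add_atTop_nhds_zero_nat
  have h4 := Final.tend_of_agree (μ := μ) Ind.main Φ α E hE1 h3 hE3
  obtain ⟨j, hj⟩ := (h4.eventually (hO.mem_nhds hΦ)).exists
  exact ⟨α j, hj, hα j⟩

/-- mixing on a dense family of sets -/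
theorem mm_of_dense {Z : Type*} [MeasurableSpace Z] {m : Measure Z} [IsProbabilityMeasure m] {S : Z → Z}
    (hS : MeasurePreserving S m m) (F : DF m) (k : ℕ)
    (h : ∀ (j : Fin (k + 1) → ℕ) (e : ℕ), ∃ N : ℕ, ∀ n : Fin (k + 1) → ℕ, Gap N n →
      |m.real (⋂ i, S^[n i] ⁻¹' F.C (j i)) - ∏ i, m.real (F.C (j i))| < 1 / ((e : ℝ) + 1)) : MMk k m S := by
  intro A hA ε hε
  have h1 : ∀ i, ∃ j, m.real (A i ∆ F.C j) < ε / (3 * (k + 1)) := by
    intro i
    obtain ⟨j, hj⟩ := F.dense (A i) (hA i) (measure_lt_top _ _) (ENNReal.ofReal (ε / (3 * (k + 1))))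
      (by rw [ENNReal.ofReal_pos]; positivity)
    exact ⟨j, ENNReal.toReal_lt_of_lt_ofReal hj⟩
  choose j hj using h1
  obtain ⟨e, he⟩ := exists_nat_one_div_lt (show (0 : ℝ) < ε / 3 by positivity)
  obtain ⟨N, hN⟩ := h j e
  refine ⟨N, fun n hn => ?_⟩
  have h2 := hN n hn
  have hsum : ∑ i : Fin (k + 1), m.real (A i ∆ F.C (j i)) < ε / 3 := by
    calc ∑ i : Fin (k + 1), m.real (A i ∆ F.C (j i)) < ∑ _i : Fin (k + 1), ε / (3 * (k + 1)) :=
          Finset.sum_lt_sum_of_nonempty Finset.univ_nonempty fun i _ => hj i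
      _ = ε / 3 := by
          simp only [Finset.sum_const, Finset.card_univ, Fintype.card_fin, nsmul_eq_mul]
          push_cast
          field_simp
  have h3 : |m.real (⋂ i, S^[n i] ⁻¹' A i) - m.real (⋂ i, S^[n i] ⁻¹' F.C (j i))| < ε / 3 := by
    refine lt_of_le_of_lt (abs_iInter_sub _ _) (lt_of_le_of_lt (le_of_eq ?_) hsum)
    refine Finset.sum_congr rfl fun i _ => ?_
    rw [← preimage_symmDiff, GM.mpr (hS.iterate (n i)) ((hA i).symmDiff (F.meas (j i)))]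
  have h4 : |∏ i, m.real (F.C (j i)) - ∏ i, m.real (A i)| < ε / 3 := by
    refine lt_of_le_of_lt (prod_sub_le _ _ _ (fun i => ⟨measureReal_nonneg, real_le_one _⟩)
      (fun i => ⟨measureReal_nonneg, real_le_one _⟩)) (lt_of_le_of_lt (Finset.sum_le_sum fun i _ => ?_) hsum)
    rw [abs_sub_comm]
    exact abs_real_sub _ _
  have h5 : m.real (⋂ i, S^[n i] ⁻¹' A i) - ∏ i, m.real (A i) =
      (m.real (⋂ i, S^[n i] ⁻¹' A i) - m.real (⋂ i, S^[n i] ⁻¹' F.C (j i))) +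
      (m.real (⋂ i, S^[n i] ⁻¹' F.C (j i)) - ∏ i, m.real (F.C (j i))) +
      (∏ i, m.real (F.C (j i)) - ∏ i, m.real (A i)) := by ring
  rw [h5]
  have h6 := abs_add_three (m.real (⋂ i, S^[n i] ⁻¹' A i) - m.real (⋂ i, S^[n i] ⁻¹' F.C (j i)))
    (m.real (⋂ i, S^[n i] ⁻¹' F.C (j i)) - ∏ i, m.real (F.C (j i)))
    (∏ i, m.real (F.C (j i)) - ∏ i, m.real (A i))
  linarith

/-- **Theorem.** The generic extension of a multiply mixing automorphism is multiply mixing. -/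
theorem generic [NullSingletonClass μ] [NullSingletonClass ν] (T : AU μ) (hM : ∀ k, MMk k μ T.1) :
    {Φ : Coc X ν | ∀ k, MMk k (μ.prod ν) (sk T.1 Φ)} ∈ @residual (Coc X ν) (tC μ ν) := by
  let _ : TopologicalSpace (Coc X ν) := tC μ ν
  obtain ⟨F⟩ := exists_DF (μ.prod ν)
  have h1 : (⋂ p : (Σ k : ℕ, ((Fin (k + 1) → ℕ) × ℕ)),
      GG μ ν T.1 (fun i => F.C (p.2.1 i)) (1 / ((p.2.2 : ℝ) + 1))) ∈ residual (Coc X ν) := by
    rw [countable_iInter_mem]
    intro p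
    exact mem_of_superset (residual_of_dense_open isOpen_interior
      (GG_dense T hM _ (fun i => F.meas _) _ (by positivity))) interior_subset
  refine mem_of_superset h1 ?_
  intro Ψ hΨ k
  rw [mem_iInter] at hΨ
  exact mm_of_dense (sk_mp T Ψ) F k fun j e => hΨ ⟨k, j, e⟩

/-- dependence on the class modulo null sets -/
theorem mmk_congr {Z : Type*} [MeasurableSpace Z] {m : Measure Z} {S S' : Z → Z}
    (hS : MeasurePreserving S m m) (h : ∀ᵐ z ∂m, S z = S' z) (k : ℕ)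
    (h1 : MMk k m S) : MMk k m S' := by
  intro A hA ε hε
  obtain ⟨N, hN⟩ := h1 A hA ε hε
  refine ⟨N, fun n hn => ?_⟩
  have h2 : ∀ n : ℕ, ∀ᵐ z ∂m, S^[n] z = S'^[n] z := by
    intro n
    induction n with
    | zero => exact Eventually.of_forall fun z => rfl
    | succ n ih =>
      have h3 := hS.quasiMeasurePreserving.ae ih
      filter_upwards [h3, h] with z hz1 hz2
      rw [Function.iterate_succ_apply, Function.iterate_succ_apply, hz1, hz2]
  have h3 : m.real (⋂ i, S'^[n i] ⁻¹' A i) = m.real (⋂ i, S^[n i] ⁻¹' A i) := by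
    apply measureReal_congr
    have h4 := (ae_all_iff.2 fun i => h2 (n i))
    filter_upwards [h4] with z hz
    apply propext
    show z ∈ (⋂ i, S'^[n i] ⁻¹' A i) ↔ z ∈ (⋂ i, S^[n i] ⁻¹' A i)
    simp only [mem_iInter, mem_preimage, hz]
  rw [h3]
  exact hN n hn

end

end Pool.Agent.TH286.GM
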